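import Pool.Agent.Q148.LI.Fac

/-!
# Independence of `ℓ` of the local Euler factors, and the hypersurfaces `∑_H x_i y_j z_k = 1`

Let `p` be a prime. For a separated scheme `X` of finite type over `ℚ`, a prime `ℓ ≠ p` and an integer
`i` let

`P_{ℓ, i}(X, T) = ∏_n det (1 - F_p T | (Gr^W_i H^n_c(X ⊗ ℚ̄, ℚ_ℓ))^{I_p})^{(-1)^{n - i}}`,

the alternating product of the local factors at `p` of the parts of weight `i` of the cohomology with
compact supports, a power series with the constant coefficient `1`. For smooth projective `Y` this is the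
polynomial `det (1 - F_p T | H^i(Y ⊗ ℚ̄, ℚ_ℓ)^{I_p})` of the problem, because `H^n(Y)` has the weight `n`.
`FactorData p` are such power series, `IsFactor` their standard properties:

* `triple`: for a closed subscheme `Z` of `X` with the complement `U` the sequences
  `⋯ → Gr^W_i H^n_c(U) → Gr^W_i H^n_c(X) → Gr^W_i H^n_c(Z) → Gr^W_i H^{n+1}_c(U) → ⋯` are exact sequences
  of realizations of motives over `ℚ` for motivated cycles (Gillet, Soulé; André); this category is
  semisimple, the sequences split, and so the invariants under the inertia group `I_p` form exact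
  sequences as well;
* `bundle`: the cohomology of the affine bundle `∑ w_k f_k = 1` with fibre `𝔸^{r-1}` over the open
  subscheme `U` where one of the functions `f_1, …, f_r` on `Spec B` is different from `0` is the
  cohomology of `U`, with the Tate twist by `-(r - 1)`, and the geometric Frobenius `F_p` acts on
  `ℚ_ℓ(-1)` by multiplication with `p`;
* `torus`: `H^n_c(X × 𝔾_m) = H^{n-2}_c(X)(-1) ⊕ H^{n-1}_c(X)`;
* `neg`: there are no negative weights.

`IntegralFactors` is the theorem that the eigenvalues of `F_p` are algebraic integers (Deligne, SGA 7,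
exposé XXI). For smooth projective `Y` the statement `Claim D Y` is the one of question Q1, for `Y`, all
`i` and the prime `p`. For arbitrary `X` the statement `Independent D X` says that all `P_{ℓ, i}(X, T)`
have rational coefficients that do not depend on `ℓ ≠ p`.

**Theorem.** (1) The following are equivalent: the statement of Q1 for the prime `p` is true for all smooth
projective varieties over `ℚ`; all separated schemes of finite type over `ℚ` satisfy `Independent`; the
smooth affine cubic hypersurfaces `X_H : ∑_{(i, j, k) ∈ H} x_i y_j z_k = 1` satisfy `Independent`, for all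
finite sets `H` of triples.

(2) For every `n`, the statement of Q1 for `p` is true for all smooth projective varieties of dimension at
most `n` over `ℚ` if and only if the hypersurfaces `T(x, y, z) = 1` satisfy `Independent`, for all
trilinear forms `T` with rational coefficients such that one of the three blocks of variables has at most
`n + 2` variables (the other two blocks are arbitrary).

(3) Unconditionally, the hypersurfaces `T(x, y, z) = 1` such that one of the three blocks of variables has
at most four variables satisfy `Independent`.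
-/

set_option autoImplicit false

open CategoryTheory AlgebraicGeometry Pool.Agent.Y116.UV Pool.Agent.Z125.UN
  Pool.Agent.Q193.LT Pool.Agent.Q148.LI Polynomial

namespace Pool.Agent.Results.MP_898f40_nt.HypergraphCubics

/-- The power series `P l i Y` of smooth projective `Y` are polynomials whose coefficients are integral
over `ℤ`. -/
def IntegralFactors {p : ℕ} (D : FactorData ℚ p) : Prop :=
  ∀ Y : Sch ℚ, SmoothProj Y → ∀ (l : Aux p) (i : ℤ), ∃ g : ℚ_[l][X],
    (D.P l i Y).val = g ∧ ∀ n, IsIntegral ℤ (g.coeff n)

/-- The statement of question Q1 for `Y` and `p`: for every `i` there is a polynomial with integral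
coefficients which is `P l i Y` for all primes `l ≠ p`. -/
def Claim {p : ℕ} (D : FactorData ℚ p) (Y : Sch ℚ) : Prop :=
  ∀ i : ℤ, ∃ g : ℤ[X], ∀ l : Aux p,
    (D.P l i Y).val =
      (g.map (Int.castRingHom ℚ_[l]) : ℚ_[l][X])

/-- The statement of question Q1 for `p` and all smooth projective schemes of dimension at most `n`. -/
def Proj {p : ℕ} (D : FactorData ℚ p) (n : ℕ) : Prop :=
  ∀ Y : Sch ℚ, SmoothProj Y → topologicalKrullDim Y.left ≤ n → Claim D Y

/-- Independence of `ℓ` for all hypersurfaces `T = 1` with a block of at most `m` variables. -/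
def Forms {p : ℕ} (D : FactorData ℚ p) (m : ℕ) : Prop :=
  ∀ (a b c : ℕ) (T : Fin a → Fin b → Fin c → ℚ), (a ≤ m ∨ b ≤ m ∨ c ≤ m) →
    Independent D (hypS T)

lemma claim_iff {p : ℕ} {D : FactorData ℚ p} (hi : IntegralFactors D) {Y : Sch ℚ}
    (hY : SmoothProj Y) : Claim D Y ↔ Independent D Y := by
  constructor
  · intro h i
    obtain ⟨g, hg⟩ := h i
    refine ⟨(g.map (Int.castRingHom ℚ) : ℚ[X]), fun l => ?_⟩
    rw [hg l]
    ext n
    simp
  · intro h i
    obtain ⟨f, hf⟩ := h i
    obtain ⟨l0⟩ := exists_aux p
    obtain ⟨g0, h0, -⟩ := hi Y hY l0 i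
    have hc : ∀ (l : Aux p) (n : ℕ),
        algebraMap ℚ ℚ_[l] (PowerSeries.coeff n f) = PowerSeries.coeff n
          (D.P l i Y).val := by
      intro l n
      rw [hf l, PowerSeries.coeff_map]
    have hint : ∀ n, ∃ z : ℤ, (z : ℚ) = PowerSeries.coeff n f := by
      intro n
      obtain ⟨g, hg, hg'⟩ := hi Y hY l0 i
      have h1 : IsIntegral ℤ (algebraMap ℚ ℚ_[l0] (PowerSeries.coeff n f)) := by
        rw [hc l0 n, hg, Polynomial.coeff_coe]
        exact hg' n
      have h2 : IsIntegral ℤ (PowerSeries.coeff n f) :=
        (isIntegral_algebraMap_iff (algebraMap ℚ ℚ_[l0]).injective).mp h1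
      obtain ⟨z, hz⟩ := IsIntegrallyClosed.isIntegral_iff.mp h2
      exact ⟨z, by simpa using hz⟩
    choose z hz using hint
    have hfin : ∀ n, g0.natDegree < n → z n = 0 := by
      intro n hn
      have h1 := hc l0 n
      rw [h0, Polynomial.coeff_coe, coeff_eq_zero_of_natDegree_lt hn] at h1
      have h2 : PowerSeries.coeff n f = 0 := (algebraMap ℚ ℚ_[l0]).injective (by rw [h1, map_zero])
      have h3 := hz n
      rw [h2] at h3
      exact_mod_cast h3
    refine ⟨∑ n ∈ Finset.range (g0.natDegree + 1), monomial n (z n), fun l => ?_⟩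
    ext n
    rw [← hc l n, Polynomial.coeff_coe, Polynomial.coeff_map, ← hz n]
    have h1 : (∑ m ∈ Finset.range (g0.natDegree + 1), monomial m (z m)).coeff n = z n := by
      rw [finsetSum_coeff]
      simp only [coeff_monomial]
      rw [Finset.sum_ite_eq' (Finset.range (g0.natDegree + 1)) n]
      split_ifs with h2
      · rfl
      · rw [Finset.mem_range, not_lt] at h2
        exact (hfin n (by omega)).symm
    rw [h1]
    simp

/-- **Independence of `ℓ` and cubic hypersurfaces.** See the explanations above. `hk` is Hironaka's
theorem. The known cases that are used are points and smooth projective varieties of dimension at most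
two. -/
theorem result {p : ℕ} [Fact p.Prime] {D : FactorData ℚ p} (hD : IsFactor D)
    (hi : IntegralFactors D) (hk : Hironaka ℚ) (point : Independent D (aff ℚ ℚ))
    (surfaces : Proj D 2) :
    List.TFAE [
      ∀ Y : Sch ℚ, SmoothProj Y → Claim D Y,
      ∀ X : Sch ℚ, FT True X → Independent D X,
      ∀ (a b c : ℕ) (H : Finset (Fin a × Fin b × Fin c)), Independent D (tripS ℚ H)] ∧
    (∀ n : ℕ, Proj D n ↔ Forms D (n + 2)) ∧ Forms D 4 := by
  have hB := bnd_factor hD point
  have hall : (∀ Y : Sch ℚ, SmoothProj Y → Claim D Y) ↔
      ∀ Y : Sch ℚ, SmoothProj Y → Independent D Y :=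
    ⟨fun h Y hY => (claim_iff hi hY).mp (h Y hY), fun h Y hY => (claim_iff hi hY).mpr (h Y hY)⟩
  have hn : ∀ n : ℕ, Proj D n ↔ Forms D (n + 2) := by
    intro n
    rw [Forms, ← sp_iff hk hB n]
    exact ⟨fun h Y hY hd => (claim_iff hi hY).mp (h Y hY hd),
      fun h Y hY hd => (claim_iff hi hY).mpr (h Y hY hd)⟩
  refine ⟨?_, hn, (hn 2).mp surfaces⟩
  tfae_have 1 ↔ 3 := hall.trans (sp_graph_iff hk hB frac_rat)
  tfae_have 1 → 2 := fun h => (all_iff hB).mpr ((sp_all_iff hk hB).mp (hall.mp h))
  tfae_have 2 → 1 := fun h => hall.mpr fun Y hY => h Y hY.ft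
  tfae_finish

end Pool.Agent.Results.MP_898f40_nt.HypergraphCubics
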