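import Pool.Agent.Q193.LT.Add

/-!
# Independence of `ℓ` of local Euler factors and the cubic hypersurfaces `T(x, y, z) = 1`

Let `p` be a prime number. For a representation `V` of `Gal(ℚ̄/ℚ)` over `ℚ_ℓ`, `ℓ ≠ p`, let
`P_{p,ℓ}(V, t) = det(1 - F_p t | V^{I_p})`. Let `δ` be `0` or `1`. For a separated scheme `X` of finite
type over `ℚ` and an integer `m` let

`D.e m X = (∏_j P_{p,ℓ}(Gr^W_{2m+δ} H^{2m+δ+j}_c(X_{ℚ̄}, ℚ_ℓ)(m), t)^{(-1)^j})_{ℓ ≠ p}`,

the alternating products of the local factors of the parts of weight `2m + δ` of the cohomology with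
compact supports, twisted by `m`; these are invertible power series in `t`, and `D.e m X` is an element
of the product (written additively) of the groups `G ℓ = ℚ_ℓ[[t]]ˣ`, `ℓ ≠ p`. There is no finiteness
condition (`D.fin m X` is always true). `Indep u D X`, for the inclusions
`u ℓ : ℚ[[t]]ˣ → ℚ_ℓ[[t]]ˣ`, says that for all `m` the power series of `D.e m X` have coefficients in
`ℚ` and do not depend on `ℓ`.

For a smooth projective variety `Y` over `ℚ` the component of `D.e m Y` at `ℓ` is
`P_{p,ℓ}(H^{2m+δ}(Y)(m), t) = P_{p,ℓ}(H^{2m+δ}(Y), p^{-m} t)`. As the eigenvalues of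
`F_p` on `H^i(Y)^{I_p}` are algebraic integers (known), `Indep u D Y` is question Q1 for
`Y`, `p` and all degrees `i = 2m + δ`: the polynomials `P_{p,ℓ}(t)` have coefficients in `ℤ` and do not
depend on `ℓ`.

The properties `IsAdd D` (additivity for a closed subscheme and its complement, affine bundles, products
with `𝔾_m`) are known: `Gr^W_w H^{w+j}_c(X)` is the `ℓ`-adic realization of the `j`-th cohomology of a
complex of objects of the semisimple category of motivated motives (André; Gillet and Soulé), so that the
functor `V ↦ V^{I_p}`, which is not exact, is applied to split sequences only.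

**Theorem.** Let `p` be a prime number and `δ ∈ {0, 1}`.

(1) Question Q1 is true for all smooth projective varieties over `ℚ`, the prime `p` and all degrees
`i ≡ δ mod 2`, if and only if for all finite sets `H` of triples the alternating products of the local
factors of the smooth affine cubic hypersurface `X_H : ∑_{(i, j, l) ∈ H} x_i y_j z_l = 1` have
coefficients in `ℚ` and do not depend on `ℓ`.

(2) For all `n`, it is true for all smooth projective varieties of dimension at most `n` if and only if
this is true for the hypersurfaces `T(x, y, z) = 1` of all trilinear forms `T` over `ℚ` such that one of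
the three blocks of variables has at most `n + 2` variables (the other two blocks are arbitrary).

(3) Unconditionally, the alternating products of the hypersurfaces `T(x, y, z) = 1` such that one of the
three blocks of variables has at most four variables have coefficients in `ℚ` and do not depend on `ℓ`
(Q1 is known in dimension at most `2`: Rapoport–Zink, de Jong, Ochiai).
-/

set_option autoImplicit false

open CategoryTheory CategoryTheory.Limits AlgebraicGeometry Pool.Agent.Y116.UV Pool.Agent.Z125.UN
  Pool.Agent.Q193.LT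

namespace Pool.Agent.Results.MP_898f40_nt.LocalFactorsOfCubics

section

variable {L G₀ : Type} {G : L → Type} [AddCommGroup G₀] [∀ ℓ, AddCommGroup (G ℓ)]

/-- The families `(f_ℓ)` which are the images of one element of `G₀`. For `G₀ = ℚ[[t]]ˣ` and
`G ℓ = ℚ_ℓ[[t]]ˣ`, `ℓ ≠ p`, and the inclusions `u ℓ`, these are the families of power series with
coefficients in `ℚ` which do not depend on `ℓ`. -/
def common (u : ∀ ℓ, G₀ →+ G ℓ) : AddSubgroup (∀ ℓ, G ℓ) := (AddMonoidHom.pi u).range

/-- The local factors of `X` at `p` are rational and do not depend on `ℓ`. -/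
def Indep (u : ∀ ℓ, G₀ →+ G ℓ) (D : AddData ℚ (∀ ℓ, G ℓ)) (X : Sch ℚ) : Prop :=
  InAll D (common u) X

/-- This is true for all smooth projective schemes of dimension at most `n`. -/
def Proj (u : ∀ ℓ, G₀ →+ G ℓ) (D : AddData ℚ (∀ ℓ, G ℓ)) (n : ℕ) : Prop :=
  ∀ Y : Sch ℚ, SmoothProj Y → topologicalKrullDim Y.left ≤ n → Indep u D Y

/-- This is true for all hypersurfaces `T = 1` with a block of at most `m` variables. -/
def Forms (u : ∀ ℓ, G₀ →+ G ℓ) (D : AddData ℚ (∀ ℓ, G ℓ)) (m : ℕ) : Prop :=
  ∀ (a b c : ℕ) (T : Fin a → Fin b → Fin c → ℚ), (a ≤ m ∨ b ≤ m ∨ c ≤ m) → Indep u D (hypS T)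

/-- **Local factors and cubic hypersurfaces.** See the explanations above; `L` is the set of prime numbers
`ℓ ≠ p` and `u ℓ : ℚ[[t]]ˣ → ℚ_ℓ[[t]]ˣ` the inclusion (the groups are written additively). `hk` is
Hironaka's theorem; `point` is the trivial case of `Spec ℚ`, `surfaces` the known case of dimension at
most `2`. -/
theorem result {u : ∀ ℓ, G₀ →+ G ℓ} {D : AddData ℚ (∀ ℓ, G ℓ)} (hD : IsAdd D) (hk : Hironaka ℚ)
    (point : Indep u D (aff ℚ ℚ)) (surfaces : Proj u D 2) :
    ((∀ Y : Sch ℚ, SmoothProj Y → Indep u D Y) ↔
      ∀ (a b c : ℕ) (H : Finset (Fin a × Fin b × Fin c)), Indep u D (tripS ℚ H)) ∧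
    (∀ n : ℕ, Proj u D n ↔ Forms u D (n + 2)) ∧ Forms u D 4 :=
  ⟨sp_graph_iff hk (bnd_add hD point) frac_rat, fun n => sp_iff hk (bnd_add hD point) n,
    (sp_iff hk (bnd_add hD point) 2).mp surfaces⟩

end

end Pool.Agent.Results.MP_898f40_nt.LocalFactorsOfCubics
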