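import Pool.Agent.Q60.LI.Th

/-!
# MP_898f40_nt: Euler factors of the products with a Tate curve

Let `p` be a prime and `E` an elliptic curve over `ℚ` with split multiplicative reduction at `p`. For
a smooth projective variety `X` over `ℚ` let `D_r ⊆ H^j (X, ℚ_ℓ)` be the space of vectors killed by
all products `(g₁ - 1) ⋯ (g_r - 1)`, `g_i` in the inertia group `I_p`; so `D_1` are the inertia
invariants and `det (1 - F_p T ∣ D_1)` is the Euler factor. Then the Euler factors of all the
varieties `X × E^t`, `t ≤ k`, are integral and independent of `ℓ` if and only if the polynomials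
`det (1 - F_p T ∣ D_r (H^j (X)))`, `r ≤ k + 1`, are integral and independent of `ℓ`. So the question
for all varieties `X × E^t` is equivalent to the independence of `ℓ` of all Jordan blocks of the
monodromy together with the Frobenius eigenvalues on them.
-/

set_option autoImplicit false

namespace Pool.Agent.Results.MP_898f40_nt.TateCurveProducts

open Pool.Agent.Q60.LI

/-- **Euler factors of the products with a Tate curve.** -/
theorem result {ι : Type} {K : ι → Type} [∀ ℓ, Field (K ℓ)] [∀ ℓ, CharZero (K ℓ)] {Γ : Type}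
    [Group Γ] {σ : Γ → Γ} {q : ℕ} (T : Theory ι K σ q) (X : T.Var) :
    (∀ k : ℕ, (∀ t ≤ k, T.Good 1 (T.mulE^[t] X)) ↔ (∀ r ≤ k + 1, T.Good r X)) ∧
    ((∀ t, T.Good 1 (T.mulE^[t] X)) ↔ (∀ r, T.Good r X)) ∧
    (∀ k : ℕ, (∀ t ≤ k, T.Good 1 (T.mulE^[t] X)) → ∀ r ≤ k + 1, ∀ (j : ℤ) (ℓ ℓ' : ι),
      T.dim X j r ℓ = T.dim X j r ℓ') := by
  refine ⟨fun k => T.main k X, ⟨fun h r => ?_, fun h t => ?_⟩, fun k h r hr j ℓ ℓ' => ?_⟩
  · exact (T.main r X).1 (fun t _ => h t) r (by omega)
  · exact (T.main t X).2 (fun r _ => h r) t le_rfl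
  · exact T.dims ((T.main k X).1 h r hr) j ℓ ℓ'

end Pool.Agent.Results.MP_898f40_nt.TateCurveProducts
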